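import Mathlib
import Pool.Agent.V7H79.RD.Main

/-!
# Blocks at different places of an expansion of an algebraic irrational number are far apart
-/

set_option autoImplicit false

namespace Pool.Agent.V7H57.PD

open Finset Pool.Agent.V7H79.RD

/-- the number of places at which the blocks of length `n` at the places `a` and `a'` differ -/
def hamming (w : ℕ → ℤ) (a a' n : ℕ) : ℕ := ((range n).filter fun t => w (a + t) ≠ w (a' + t)).card

/-- Two long blocks of an expansion differ at more than `K` places. -/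
theorem far_blocks (b : ℕ) (hb : 2 ≤ b) (ξ : ℝ) (hξ : IsAlgebraic ℚ ξ) (hirr : Irrational ξ)
    (ε : ℝ) (hε : 0 < ε) (K : ℕ) :
    ∃ η : ℝ, 0 < η ∧ ∃ N₀ : ℕ, ∀ N : ℕ, N₀ ≤ N → ∀ w : ℕ → ℤ,
      Expansion b ξ (Real.exp (η * N)) w → ∀ n : ℕ, ε * N ≤ n → ∀ a a' : ℕ, 1 ≤ a → a < a' →
      a' ≤ N → K < hamming w a a' n := by
  obtain ⟨η, hη, N1, h1⟩ := no_repeat b hb ξ hξ hirr (ε / (2 * (K + 1) * (1 + ε))) (by positivity)
  refine ⟨η, hη, max N1 ⌈2 * (K + 1) / ε⌉₊, fun N hN w hw n hn a a' ha haa' ha' => ?_⟩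
  have hN1 : N1 ≤ N := (le_max_left _ _).trans hN
  have hN2 : 2 * (K + 1) / ε ≤ N :=
    (Nat.le_ceil _).trans (by exact_mod_cast (le_max_right _ _).trans hN)
  rw [div_le_iff₀ hε] at hN2
  have hK0 : (0 : ℝ) ≤ K := Nat.cast_nonneg _
  have hn2 : 2 * ((K : ℝ) + 1) ≤ n := by linarith
  obtain ⟨s, hs⟩ : ∃ s, s = n / (K + 1) := ⟨_, rfl⟩
  have hs1 : s * (K + 1) ≤ n := hs ▸ Nat.div_mul_le_self n (K + 1)
  have hs2 : n < (s + 1) * (K + 1) := by
    have := Nat.lt_div_mul_add (a := n) (b := K + 1) (by omega)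
    calc n < n / (K + 1) * (K + 1) + (K + 1) := this
      _ = (s + 1) * (K + 1) := by rw [hs]; ring
  have hs2R : (n : ℝ) < (s + 1) * (K + 1) := by exact_mod_cast hs2
  have hs3 : (n : ℝ) / (2 * (K + 1)) ≤ s := by
    rw [div_le_iff₀ (by positivity)]
    nlinarith
  have hNn : (N : ℝ) ≤ n / ε := by
    rw [le_div_iff₀ hε]
    linarith
  have hs4 : ε / (2 * (K + 1) * (1 + ε)) * ((N + n : ℕ) : ℝ) ≤ s := by
    refine le_trans ?_ hs3
    push_cast
    calc ε / (2 * (K + 1) * (1 + ε)) * ((N : ℝ) + n)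
        ≤ ε / (2 * (K + 1) * (1 + ε)) * (n / ε + n) := by
          apply mul_le_mul_of_nonneg_left _ (by positivity)
          linarith
      _ = n / (2 * (K + 1)) := by
          field_simp
  have hrep : ∀ l < K + 1, ∃ t, l * s ≤ t ∧ t < (l + 1) * s ∧ w (a + t) ≠ w (a' + t) := by
    intro l hl
    have hls : (l + 1) * s ≤ n := by
      calc (l + 1) * s ≤ (K + 1) * s := Nat.mul_le_mul_right _ hl
        _ = s * (K + 1) := mul_comm _ _
        _ ≤ n := hs1
    have hls' : (l + 1) * s = l * s + s := by ring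
    have hls2 : l * s + s ≤ n := hls' ▸ hls
    obtain ⟨t, ht, hne⟩ := h1 (N + n) (by omega) w (hw.mono (Real.exp_le_exp.2
      (mul_le_mul_of_nonneg_left (by push_cast; linarith [(Nat.cast_nonneg n : (0 : ℝ) ≤ n)])
        hη.le))) s hs4 (a + l * s - 1) (a' + l * s - 1) (by omega) (by omega)
    refine ⟨l * s + t, by omega, by omega, ?_⟩
    have e1 : a + l * s - 1 + 1 + t = a + (l * s + t) := by omega
    have e2 : a' + l * s - 1 + 1 + t = a' + (l * s + t) := by omega
    rwa [e1, e2] at hne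
  choose! f hf using hrep
  have hcard : (range (K + 1)).card ≤ ((range n).filter fun t => w (a + t) ≠ w (a' + t)).card := by
    apply card_le_card_of_injOn f
    · intro l hl
      rw [mem_coe, mem_range] at hl
      obtain ⟨h2, h3, h4⟩ := hf l hl
      rw [mem_coe, mem_filter, mem_range]
      refine ⟨lt_of_lt_of_le h3 ?_, h4⟩
      calc (l + 1) * s ≤ (K + 1) * s := Nat.mul_le_mul_right _ hl
        _ = s * (K + 1) := mul_comm _ _
        _ ≤ n := hs1
    · intro l hl l' hl' heq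
      rw [mem_coe, mem_range] at hl hl'
      obtain ⟨h2, h3, _⟩ := hf l hl
      obtain ⟨h2', h3', _⟩ := hf l' hl'
      rw [heq] at h2 h3
      by_contra hne
      rcases Nat.lt_or_gt_of_ne hne with hlt | hlt
      · have : (l + 1) * s ≤ l' * s := Nat.mul_le_mul_right _ hlt
        omega
      · have : (l' + 1) * s ≤ l * s := Nat.mul_le_mul_right _ hlt
        omega
  rw [card_range] at hcard
  unfold hamming
  omega

/-- In the tree of the numbers in base `k`, the two subtrees below `n` and `n'` carry the same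
values of `c`, up to at most `D` exceptions at each level, for some `n < n' ≤ B`. -/
def Merging (k B D : ℕ) (c : ℕ → ℤ) : Prop :=
  ∃ n n' : ℕ, 1 ≤ n ∧ n < n' ∧ n' ≤ B ∧ ∀ l : ℕ, hamming c (n * k ^ l) (n' * k ^ l) (k ^ l) ≤ D

/-- differences in two disjoint blocks -/
lemma hamming_le_wrong (w c : ℕ → ℤ) (a a' L M N : ℕ) (h1 : M < a) (h2 : a + L ≤ a')
    (h3 : a' + L ≤ N + 1) :
    hamming w a a' L ≤ wrong w c M N + hamming c a a' L := by
  classical
  unfold hamming wrong
  set A := (range L).filter fun t => w (a + t) ≠ c (a + t) with hA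
  set A' := (range L).filter fun t => w (a' + t) ≠ c (a' + t) with hA'
  set A'' := (range L).filter fun t => c (a + t) ≠ c (a' + t) with hA''
  have hsub : ((range L).filter fun t => w (a + t) ≠ w (a' + t)) ⊆ A ∪ A' ∪ A'' := by
    intro t ht
    rw [mem_filter] at ht
    rw [mem_union, mem_union, hA, hA', hA'', mem_filter, mem_filter, mem_filter]
    by_contra hcon
    push Not at hcon
    obtain ⟨⟨e1, e2⟩, e3⟩ := hcon
    exact ht.2 ((e1 ht.1).trans ((e3 ht.1).trans (e2 ht.1).symm))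
  have hdis : (A.image fun t => a + t) ∪ (A'.image fun t => a' + t) ⊆
      (Ioc M N).filter fun k => w k ≠ c k := by
    intro k hk
    rw [mem_union, mem_image, mem_image] at hk
    rw [mem_filter, mem_Ioc]
    rcases hk with ⟨t, ht, rfl⟩ | ⟨t, ht, rfl⟩
    · rw [hA, mem_filter, mem_range] at ht
      refine ⟨?_, ht.2⟩
      omega
    · rw [hA', mem_filter, mem_range] at ht
      refine ⟨?_, ht.2⟩
      omega
  have hc1 : (A.image fun t => a + t).card = A.card :=
    card_image_of_injective _ fun x y h => by simpa using h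
  have hc2 : (A'.image fun t => a' + t).card = A'.card :=
    card_image_of_injective _ fun x y h => by simpa using h
  have hd : Disjoint (A.image fun t => a + t) (A'.image fun t => a' + t) := by
    rw [disjoint_left]
    intro k hk hk'
    rw [mem_image] at hk hk'
    obtain ⟨t, ht, rfl⟩ := hk
    obtain ⟨t', ht', he⟩ := hk'
    rw [hA, mem_filter, mem_range] at ht
    omega
  have h4 := card_le_card hdis
  rw [card_union_of_disjoint hd, hc1, hc2] at h4
  have h5 := card_le_card hsub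
  have h6 := card_union_le (A ∪ A') A''
  have h7 := card_union_le A A'
  omega

/-- Every interval `(N, k (B + 1) N]` has more than `K` wrong places. -/
theorem merging_window (b : ℕ) (hb : 2 ≤ b) (ξ : ℝ) (hξ : IsAlgebraic ℚ ξ) (hirr : Irrational ξ)
    (k : ℕ) (hk : 2 ≤ k) (B D K : ℕ) :
    ∃ η : ℝ, 0 < η ∧ ∃ N₀ : ℕ, ∀ N : ℕ, N₀ ≤ N → ∀ w : ℕ → ℤ,
      Expansion b ξ (Real.exp (η * N)) w → ∀ c : ℕ → ℤ, Merging k B D c →
      K < wrong w c N (k * (B + 1) * N) := by
  have hkR : (2 : ℝ) ≤ k := by exact_mod_cast hk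
  have hBR : (0 : ℝ) ≤ B := Nat.cast_nonneg _
  obtain ⟨η, hη, N1, h1⟩ := far_blocks b hb ξ hξ hirr (1 / (k * (B + 1) ^ 2)) (by positivity)
    (K + D)
  refine ⟨η, hη, max N1 (B + 1), fun N hN w hw c hc => ?_⟩
  have hN1 : N1 ≤ N := (le_max_left _ _).trans hN
  have hN2 : B + 1 ≤ N := (le_max_right _ _).trans hN
  obtain ⟨n, n', hn, hnn', hn', hmerge⟩ := hc
  -- the level
  have hex : ∃ l : ℕ, N < n * k ^ l := by
    refine ⟨N, ?_⟩
    calc N < k ^ N := Nat.lt_pow_self (by omega)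
      _ ≤ n * k ^ N := Nat.le_mul_of_pos_left _ (by omega)
  classical
  set l := Nat.find hex with hl
  have hl1 : N < n * k ^ l := Nat.find_spec hex
  have hl0 : l ≠ 0 := by
    intro h0
    rw [h0, pow_zero] at hl1
    omega
  obtain ⟨m, hm⟩ := Nat.exists_eq_succ_of_ne_zero hl0
  have hl2 : n * k ^ m ≤ N := by
    have := Nat.find_min hex (m := m) (by omega)
    omega
  have hl3 : n * k ^ l ≤ k * N := by
    rw [hm, pow_succ]
    calc n * (k ^ m * k) = k * (n * k ^ m) := by ring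
      _ ≤ k * N := Nat.mul_le_mul_left _ hl2
  set L := k ^ l with hL
  have hL0 : 0 < L := by positivity
  have hend : n' * L + L ≤ k * (B + 1) * N := by
    calc n' * L + L = (n' + 1) * (1 * L) := by ring
      _ ≤ (B + 1) * (n * L) := Nat.mul_le_mul (by omega) (Nat.mul_le_mul_right _ hn)
      _ ≤ (B + 1) * (k * N) := Nat.mul_le_mul_left _ hl3
      _ = k * (B + 1) * N := by ring
  have hNk : N ≤ k * (B + 1) * N := Nat.le_mul_of_pos_left _ (by positivity)
  have hNL : N ≤ B * L := by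
    calc N ≤ n * L := hl1.le
      _ ≤ B * L := Nat.mul_le_mul_right _ (by omega)
  have hNLR : (N : ℝ) ≤ B * L := by exact_mod_cast hNL
  have h2 := h1 (k * (B + 1) * N) (hN1.trans hNk) w (hw.mono (Real.exp_le_exp.2
    (mul_le_mul_of_nonneg_left (by exact_mod_cast hNk) hη.le))) L (by
      push_cast
      rw [div_mul_eq_mul_div, div_le_iff₀ (by positivity)]
      have h3 : (0 : ℝ) ≤ L := Nat.cast_nonneg _
      calc 1 * ((k : ℝ) * (B + 1) * N) ≤ 1 * ((k : ℝ) * (B + 1) * (B * L)) := by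
            apply mul_le_mul_of_nonneg_left _ zero_le_one
            exact mul_le_mul_of_nonneg_left hNLR (by positivity)
        _ = (L * (k * (B + 1))) * B := by ring
        _ ≤ (L * (k * (B + 1))) * (B + 1) := by
            apply mul_le_mul_of_nonneg_left _ (by positivity)
            linarith
        _ = (L : ℝ) * (k * (B + 1) ^ 2) := by ring) (n * L) (n' * L) (Nat.mul_pos hn hL0)
      (Nat.mul_lt_mul_of_pos_right hnn' hL0) (by omega)
  have h4 := hamming_le_wrong w c (n * L) (n' * L) L N (k * (B + 1) * N) hl1 (by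
    calc n * L + L = (n + 1) * L := by ring
      _ ≤ n' * L := Nat.mul_le_mul_right _ hnn') (by omega)
  have h5 : hamming c (n * L) (n' * L) L ≤ D := hmerge l
  omega

/-- disjoint windows -/
lemma wrong_sum' (w c : ℕ → ℤ) (C g h : ℕ) (hC : 2 ≤ C) :
    ∑ j ∈ Ico g h, wrong w c (C ^ j) (C * C ^ j) ≤ wrong w c 0 (C ^ h) := by
  unfold wrong
  rw [← card_biUnion]
  · apply card_le_card
    intro k hk
    rw [mem_biUnion] at hk
    obtain ⟨j, hj, hk⟩ := hk
    rw [mem_Ico] at hj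
    rw [mem_filter, mem_Ioc] at hk ⊢
    refine ⟨⟨by omega, hk.1.2.trans ?_⟩, hk.2⟩
    rw [← pow_succ']
    exact Nat.pow_le_pow_right (by omega) (by omega)
  · intro j _ j' _ hne
    rw [Function.onFun, disjoint_left]
    intro k hk hk'
    rw [mem_filter, mem_Ioc] at hk hk'
    rw [← pow_succ'] at hk hk'
    rcases Nat.lt_or_gt_of_ne hne with hlt | hlt
    · have : C ^ (j + 1) ≤ C ^ j' := Nat.pow_le_pow_right (by omega) hlt
      omega
    · have : C ^ (j' + 1) ≤ C ^ j := Nat.pow_le_pow_right (by omega) hlt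
      omega

/-- From windows to the logarithm. -/
theorem log_of_windows (b : ℕ) (ξ : ℝ) (P : (ℕ → ℤ) → Prop) (C : ℕ) (hC : 2 ≤ C)
    (hwin : ∀ K : ℕ, ∃ η : ℝ, 0 < η ∧ ∃ N₀ : ℕ, ∀ N : ℕ, N₀ ≤ N → ∀ w : ℕ → ℤ,
      Expansion b ξ (Real.exp (η * N)) w → ∀ c : ℕ → ℤ, P c → K < wrong w c N (C * N)) (K : ℕ) :
    ∃ N₀ : ℕ, ∀ N : ℕ, N₀ ≤ N → ∀ w : ℕ → ℤ, Expansion b ξ ((N : ℝ) ^ K) w → ∀ c : ℕ → ℤ, P c →
      K * Real.log N < wrong w c 0 N := by
  obtain ⟨η, hη, N1, h1⟩ := hwin (4 * K * C)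
  have hC0 : (0 : ℝ) < C := by
    have : 0 < C := by omega
    exact_mod_cast this
  -- `K log N ≤ (η / C) √N`
  obtain ⟨N2, hN2⟩ : ∃ N2 : ℕ, ∀ N : ℕ, N2 ≤ N → K * Real.log N ≤ η / C * (N : ℝ) ^ (1 / 2 : ℝ) := by
    have h2 := (isLittleO_log_rpow_atTop (show (0 : ℝ) < 1 / 2 by norm_num)).def
      (show 0 < η / C / (K + 1) by positivity)
    have h3 := tendsto_natCast_atTop_atTop (R := ℝ) |>.eventually h2
    obtain ⟨N2, hN2⟩ := Filter.eventually_atTop.1 h3
    refine ⟨N2, fun N hN => ?_⟩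
    have h4 := hN2 N hN
    rw [Real.norm_eq_abs, Real.norm_eq_abs, abs_of_nonneg (Real.log_natCast_nonneg N),
      abs_of_nonneg (Real.rpow_nonneg (Nat.cast_nonneg N) _)] at h4
    have hK0 : (0 : ℝ) ≤ K := Nat.cast_nonneg _
    calc K * Real.log N ≤ (K + 1) * Real.log N := by
          apply mul_le_mul_of_nonneg_right _ (Real.log_natCast_nonneg N)
          linarith
      _ ≤ (K + 1) * (η / C / (K + 1) * (N : ℝ) ^ (1 / 2 : ℝ)) :=
          mul_le_mul_of_nonneg_left h4 (by positivity)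
      _ = _ := by field_simp
  refine ⟨max (C ^ 2 * (N1 + 1) ^ 2) (max N2 (C ^ 2)), fun N hN w hw c hc => ?_⟩
  have hN3 : C ^ 2 * (N1 + 1) ^ 2 ≤ N := (le_max_left _ _).trans hN
  have hN4 : N2 ≤ N := ((le_max_left _ _).trans (le_max_right _ _)).trans hN
  have hN5 : C ^ 2 ≤ N := ((le_max_right _ _).trans (le_max_right _ _)).trans hN
  have hN0 : N ≠ 0 := by
    have : 2 ^ 2 ≤ C ^ 2 := Nat.pow_le_pow_left hC 2
    omega
  set h := Nat.log C N with hh
  have hlo : C ^ h ≤ N := Nat.pow_log_le_self C hN0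
  have hhi : N < C ^ (h + 1) := Nat.lt_pow_succ_log_self (by omega) N
  have hh1 : 1 ≤ h := by
    by_contra hcon
    have h5 : h = 0 := by omega
    rw [h5] at hhi
    have : C ^ (0 + 1) ≤ C ^ 2 := Nat.pow_le_pow_right (by omega) (by omega)
    omega
  set s := C ^ (h / 2) with hs
  have hsq : N < C ^ 2 * s ^ 2 := by
    calc N < C ^ (h + 1) := hhi
      _ ≤ C ^ (2 + 2 * (h / 2)) := Nat.pow_le_pow_right (by omega) (by omega)
      _ = C ^ 2 * s ^ 2 := by rw [hs]; ring
  have hSs : N1 ≤ s := by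
    by_contra hcon
    push Not at hcon
    have : C ^ 2 * s ^ 2 ≤ C ^ 2 * (N1 + 1) ^ 2 :=
      Nat.mul_le_mul_left _ (Nat.pow_le_pow_left (by omega) 2)
    omega
  have hlog : K * Real.log N ≤ η * s := by
    refine (hN2 N hN4).trans ?_
    have h2 : (N : ℝ) ^ (1 / 2 : ℝ) ≤ C * s := by
      rw [← Real.sqrt_eq_rpow]
      apply Real.sqrt_le_iff.2
      refine ⟨by positivity, ?_⟩
      have h3 : (N : ℝ) ≤ (C : ℝ) ^ 2 * (s : ℝ) ^ 2 := by exact_mod_cast hsq.le
      linarith [mul_pow (C : ℝ) (s : ℝ) 2]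
    calc η / C * (N : ℝ) ^ (1 / 2 : ℝ) ≤ η / C * (C * s) :=
          mul_le_mul_of_nonneg_left h2 (by positivity)
      _ = η * s := by field_simp
  have hpow : (N : ℝ) ^ K ≤ Real.exp (η * s) := by
    have h2 : (N : ℝ) ^ K = Real.exp (K * Real.log N) := by
      rw [← Real.rpow_natCast, Real.rpow_def_of_pos (by
        have : 0 < N := by omega
        exact_mod_cast this), mul_comm]
    rw [h2]
    exact Real.exp_le_exp.2 hlog
  have hwin' : ∀ j ∈ Ico (h / 2) h, 4 * K * C + 1 ≤ wrong w c (C ^ j) (C * C ^ j) := by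
    intro j hj
    rw [mem_Ico] at hj
    have hj1 : s ≤ C ^ j := Nat.pow_le_pow_right (by omega) hj.1
    exact h1 (C ^ j) (hSs.trans hj1) w (hw.mono (hpow.trans
      (Real.exp_le_exp.2 (mul_le_mul_of_nonneg_left (by exact_mod_cast hj1) hη.le)))) c hc
  have h2 : (h - h / 2) * (4 * K * C + 1) ≤ wrong w c 0 N := by
    calc (h - h / 2) * (4 * K * C + 1) = ∑ j ∈ Ico (h / 2) h, (4 * K * C + 1) := by
          rw [sum_const, Nat.card_Ico, smul_eq_mul]
      _ ≤ ∑ j ∈ Ico (h / 2) h, wrong w c (C ^ j) (C * C ^ j) := sum_le_sum hwin'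
      _ ≤ wrong w c 0 (C ^ h) := wrong_sum' w c C _ _ hC
      _ ≤ wrong w c 0 N := wrong_mono w c hlo
  have h3 : h * (4 * K * C + 1) ≤ 2 * wrong w c 0 N := by
    calc h * (4 * K * C + 1) ≤ (2 * (h - h / 2)) * (4 * K * C + 1) :=
          Nat.mul_le_mul_right _ (by omega)
      _ = 2 * ((h - h / 2) * (4 * K * C + 1)) := by ring
      _ ≤ _ := Nat.mul_le_mul_left _ h2
  have h4 : (h : ℝ) * (4 * K * C + 1) ≤ 2 * wrong w c 0 N := by exact_mod_cast h3
  have h5 : Real.log N ≤ 2 * h * C := by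
    have h6 : Real.log N ≤ Real.log ((C : ℝ) ^ (h + 1)) := by
      apply Real.log_le_log
      · have : 0 < N := by omega
        exact_mod_cast this
      · exact_mod_cast hhi.le
    rw [Real.log_pow] at h6
    push_cast at h6
    have h7 : Real.log C ≤ C := by
      have := Real.log_le_sub_one_of_pos hC0
      linarith
    have h8 : ((h : ℝ) + 1) * Real.log C ≤ (2 * h) * C := by
      have h9 : (1 : ℝ) ≤ h := by exact_mod_cast hh1
      have h10 : 0 ≤ Real.log C := Real.log_natCast_nonneg C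
      exact mul_le_mul (by linarith) h7 h10 (by positivity)
    linarith
  have h6 : K * Real.log N ≤ K * (2 * h * C) := mul_le_mul_of_nonneg_left h5 (Nat.cast_nonneg _)
  have h7 : (1 : ℝ) ≤ h := by exact_mod_cast hh1
  nlinarith

end Pool.Agent.V7H57.PD
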