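import Mathlib
import Pool.Agent.V7H57.PD.Blocks
import Pool.Agent.V7H57.PD.Machine

/-!
# Outputs of pushdown automata are far from every expansion of an algebraic irrational number
-/

set_option autoImplicit false

namespace Pool.Agent.V7H57.PD

open Finset Pool.Agent.V7H79.RD

/-- the integer part and the digits of `ξ` after the point in base `b` -/
noncomputable def digits (b : ℕ) (ξ : ℝ) (k : ℕ) : ℤ :=
  if k = 0 then ⌊ξ⌋ else ⌊ξ * (b : ℝ) ^ k⌋ % (b : ℤ)

lemma digits_expansion (b : ℕ) (hb : 2 ≤ b) (ξ : ℝ) : Expansion b ξ b (digits b ξ) := by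
  have hbR : (2 : ℝ) ≤ b := by exact_mod_cast hb
  have hb0 : (0 : ℝ) < b := by linarith
  have hbZ : (0 : ℤ) < b := by exact_mod_cast (by omega : 0 < b)
  have hd : ∀ k, 1 ≤ k → |(digits b ξ k : ℝ)| ≤ b := by
    intro k hk
    unfold digits
    rw [if_neg (by omega)]
    have h1 := Int.emod_nonneg ⌊ξ * (b : ℝ) ^ k⌋ hbZ.ne'
    have h2 := Int.emod_lt_of_pos ⌊ξ * (b : ℝ) ^ k⌋ hbZ
    rw [abs_of_nonneg (by exact_mod_cast h1)]
    exact_mod_cast h2.le
  refine ⟨1, 1, 0, one_ne_zero, one_ne_zero, ?_, ?_, hd, ?_⟩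
  · push_cast; rw [abs_one]; linarith
  · push_cast; rw [abs_one]; linarith
  have hfl : ∀ n : ℕ, ∑ k ∈ range (n + 1), (digits b ξ k : ℝ) / (b : ℝ) ^ k =
      (⌊ξ * (b : ℝ) ^ n⌋ : ℝ) / (b : ℝ) ^ n := by
    intro n
    induction n with
    | zero => simp [digits]
    | succ n ih =>
      have h : ⌊ξ * (b : ℝ) ^ (n + 1)⌋ / (b : ℤ) = ⌊ξ * (b : ℝ) ^ n⌋ := by
        rw [← Int.floor_div_natCast]
        congr 1
        rw [pow_succ]
        field_simp
      have h2 := Int.emod_add_mul_ediv ⌊ξ * (b : ℝ) ^ (n + 1)⌋ b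
      rw [h] at h2
      have h3 : (digits b ξ (n + 1) : ℝ) =
          (⌊ξ * (b : ℝ) ^ (n + 1)⌋ : ℝ) - b * (⌊ξ * (b : ℝ) ^ n⌋ : ℝ) := by
        unfold digits
        rw [if_neg (by omega)]
        have h4 : ⌊ξ * (b : ℝ) ^ (n + 1)⌋ % (b : ℤ) =
            ⌊ξ * (b : ℝ) ^ (n + 1)⌋ - b * ⌊ξ * (b : ℝ) ^ n⌋ := by linarith
        rw [h4]
        push_cast
        ring
      rw [sum_range_succ, ih, h3, pow_succ]
      field_simp
      ring
  have hsum : Summable fun k => (digits b ξ k : ℝ) / (b : ℝ) ^ k := by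
    rw [← summable_nat_add_iff 1]
    apply Summable.of_norm_bounded (g := fun k : ℕ => (b : ℝ) * ((b : ℝ)⁻¹) ^ (k + 1))
    · apply Summable.mul_left
      rw [summable_nat_add_iff 1]
      exact summable_geometric_of_lt_one (by positivity) (inv_lt_one_of_one_lt₀ (by linarith))
    · intro k
      rw [Real.norm_eq_abs, abs_div, abs_of_pos (show (0 : ℝ) < (b : ℝ) ^ (k + 1) by positivity),
        inv_pow, ← div_eq_mul_inv]
      exact div_le_div_of_nonneg_right (hd _ (by omega)) (by positivity)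
  have h1 : HasSum (fun k => (digits b ξ k : ℝ) / (b : ℝ) ^ k) ξ := by
    rw [hsum.hasSum_iff_tendsto_nat]
    rw [← Filter.tendsto_add_atTop_iff_nat 1]
    simp only [hfl]
    have h2 : Filter.Tendsto (fun n : ℕ => ξ - ((b : ℝ)⁻¹) ^ n) Filter.atTop (nhds (ξ - 0)) :=
      tendsto_const_nhds.sub (tendsto_pow_atTop_nhds_zero_of_lt_one (by positivity)
        (inv_lt_one_of_one_lt₀ (by linarith)))
    rw [sub_zero] at h2
    refine tendsto_of_tendsto_of_tendsto_of_le_of_le h2 tendsto_const_nhds ?_ ?_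
    · intro n
      beta_reduce
      have h3 := Int.lt_floor_add_one (ξ * (b : ℝ) ^ n)
      rw [le_div_iff₀ (by positivity), sub_mul, inv_pow, inv_mul_cancel₀ (by positivity)]
      linarith
    · intro n
      beta_reduce
      rw [div_le_iff₀ (by positivity)]
      exact Int.floor_le _
  simpa using h1

/-- the output of a pushdown automaton is merging -/
theorem merging_pushdown (k Q G r : ℕ) (hk : 2 ≤ k) : ∃ B : ℕ, ∀ (M : Pushdown k Q G r)
    (s : ℕ → Fin Q × List (Fin G)), Run M s → ∀ (out : Fin Q → Option (Fin G) → ℤ) (c : ℕ → ℤ),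
    (∀ n, 1 ≤ n → c n = out (s n).1 (s n).2.head?) → Merging k B 0 c := by
  obtain ⟨B, hB⟩ := pair_bound k Q G r hk
  refine ⟨B, fun M s hs out c hc => ?_⟩
  obtain ⟨n, n', h1, h2, h3, h4⟩ := hB M s hs
  refine ⟨n, n', h1, h2, h3, fun l => ?_⟩
  unfold hamming
  rw [Nat.le_zero, card_eq_zero, filter_eq_empty_iff]
  intro j hj
  rw [mem_range] at hj
  have hkl : 0 < k ^ l := by positivity
  have e1 : 1 ≤ n * k ^ l + j := (Nat.mul_pos h1 hkl).trans_le (Nat.le_add_right _ _)
  have e2 : 1 ≤ n' * k ^ l + j :=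
    (Nat.mul_pos (by omega : 0 < n') hkl).trans_le (Nat.le_add_right _ _)
  rw [not_not, hc _ e1, hc _ e2, (h4 l j hj).1, (h4 l j hj).2]

/-- a machine with small memory has a merging output -/
theorem merging_memory (k L : ℕ) (hk : 2 ≤ k) {α : Type} (s : ℕ → α) (step : α → Fin k → α)
    (out : α → ℤ) (c : ℕ → ℤ) (hs : ∀ n, 1 ≤ n → ∀ d : Fin k, s (k * n + d) = step (s n) d)
    (hc : ∀ n, 1 ≤ n → c n = out (s n))
    (hL : (s '' Set.Ico (k ^ L) (k ^ (L + 1))).ncard < k ^ (L + 1) - k ^ L) :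
    Merging k (k ^ (L + 1)) 0 c := by
  classical
  have hkL : 1 ≤ k ^ L := Nat.one_le_pow _ _ (by omega)
  obtain ⟨a, ha, a', ha', hne, heq⟩ := exists_ne_map_eq_of_card_lt_of_maps_to
    (s := Ico (k ^ L) (k ^ (L + 1))) (t := (Ico (k ^ L) (k ^ (L + 1))).image s) (f := s) (by
      rw [Nat.card_Ico, ← Set.ncard_coe_finset, coe_image, coe_Ico]
      exact hL) (fun x hx => mem_coe.2 (mem_image_of_mem s (mem_coe.1 hx)))
  rw [mem_Ico] at ha ha'
  have hkey : ∀ n n' : ℕ, 1 ≤ n → 1 ≤ n' → s n = s n' → ∀ l, ∀ j < k ^ l,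
      s (n * k ^ l + j) = s (n' * k ^ l + j) := by
    intro n n' hn hn' h l
    induction l with
    | zero =>
      intro j hj
      have : j = 0 := by simpa using hj
      subst this
      simpa using h
    | succ l ih =>
      intro j hj
      have hj' : j / k < k ^ l := by
        rw [Nat.div_lt_iff_lt_mul (by omega)]
        rwa [pow_succ] at hj
      have e : ∀ m, k * (m * k ^ l + j / k) + j % k = m * k ^ (l + 1) + j := by
        intro m
        have := Nat.div_add_mod j k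
        calc k * (m * k ^ l + j / k) + j % k = m * k ^ (l + 1) + (k * (j / k) + j % k) := by ring
          _ = _ := by rw [this]
      have hpos : ∀ m, 1 ≤ m → 1 ≤ m * k ^ l + j / k := fun m hm =>
        (Nat.mul_pos hm (by positivity)).trans_le (Nat.le_add_right _ _)
      have g1 := hs _ (hpos n hn) ⟨j % k, Nat.mod_lt _ (by omega)⟩
      have g2 := hs _ (hpos n' hn') ⟨j % k, Nat.mod_lt _ (by omega)⟩
      simp only [e] at g1 g2
      rw [g1, g2, ih _ hj']
  have hmerge : ∀ n n' : ℕ, 1 ≤ n → n < n' → n' < k ^ (L + 1) → s n = s n' →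
      Merging k (k ^ (L + 1)) 0 c := by
    intro n n' h1 h2 h3 h4
    refine ⟨n, n', h1, h2, h3.le, fun l => ?_⟩
    unfold hamming
    rw [Nat.le_zero, card_eq_zero, filter_eq_empty_iff]
    intro j hj
    rw [mem_range] at hj
    have hkl : 0 < k ^ l := by positivity
    have e1 : 1 ≤ n * k ^ l + j := (Nat.mul_pos h1 hkl).trans_le (Nat.le_add_right _ _)
    have e2 : 1 ≤ n' * k ^ l + j :=
      (Nat.mul_pos (by omega : 0 < n') hkl).trans_le (Nat.le_add_right _ _)
    rw [not_not, hc _ e1, hc _ e2, hkey n n' h1 (by omega) h4 l j hj]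
  rcases Nat.lt_or_gt_of_ne hne with h | h
  · exact hmerge a a' (hkL.trans ha.1) h ha'.2 heq
  · exact hmerge a' a (hkL.trans ha'.1) h ha.2 heq.symm

end Pool.Agent.V7H57.PD
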